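import Pool.Agent.H31.Konig

set_option autoImplicit false
open Finset Function

namespace Pool.Agent.Results.MP_0e8bc2_co.Formula

variable {V : Type}

/-- `M` is a matching of `G` with exactly `m` edges. -/
def IsM (G : SimpleGraph V) (m : ℕ) (M : Finset (Sym2 V)) : Prop :=
  #M = m ∧ (∀ e ∈ M, e ∈ G.edgeSet) ∧ ∀ e ∈ M, ∀ e' ∈ M, e ≠ e' → ∀ v ∈ e, v ∉ e'

/-- Every edge lies in an `[m]`-matching. -/
def Coverable (G : SimpleGraph V) (m : ℕ) : Prop := ∀ e ∈ G.edgeSet, ∃ M, IsM G m M ∧ e ∈ M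

/-- The excessive `[m]`-index. -/
noncomputable def exc (G : SimpleGraph V) (m : ℕ) : ℕ :=
  sInf {k | ∃ M : Fin k → Finset (Sym2 V), (∀ i, IsM G m (M i)) ∧ ∀ e ∈ G.edgeSet, ∃ i, e ∈ M i}

/-- The chromatic index. -/
noncomputable def chi (G : SimpleGraph V) : ℕ :=
  sInf {k | ∃ c : Sym2 V → ℕ, (∀ e ∈ G.edgeSet, c e < k) ∧
    ∀ e ∈ G.edgeSet, ∀ e' ∈ G.edgeSet, e ≠ e' → c e = c e' → ∀ v ∈ e, v ∉ e'}

/-- `S` is the edge set of a `t`-splitting set. -/
def Split (G : SimpleGraph V) (m t : ℕ) (S : Finset (Sym2 V)) : Prop :=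
  (∀ e ∈ S, e ∈ G.edgeSet) ∧ (∃ N ⊆ S, IsM G (t + 1) N) ∧
    ∀ N ⊆ S, IsM G (t + 1) N → ∀ M, IsM G m M → ¬N ⊆ M

/-- The largest number of edges of a `t`-splitting set (`0` if there is none). -/
noncomputable def s (G : SimpleGraph V) (m t : ℕ) : ℕ := sSup {n | ∃ S, Split G m t S ∧ #S = n}

theorem cov {G : SimpleGraph V} {t k : ℕ} {S : Finset (Sym2 V)} (M : Fin k → Finset (Sym2 V))
    (h : ∀ e ∈ S, ∃ i, e ∈ M i) (h1 : ∀ i, ∀ e ∈ M i, e ∈ G.edgeSet)
    (h2 : ∀ i, ∀ e ∈ M i, ∀ e' ∈ M i, e ≠ e' → ∀ v ∈ e, v ∉ e')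
    (h3 : ∀ i, ∀ N ⊆ S, IsM G (t + 1) N → ¬N ⊆ M i) : #S ≤ k * t := by
  classical
  refine (card_le_card (t := univ.biUnion fun i => S ∩ M i) fun e he => ?_).trans
    ((card_biUnion_le_card_mul _ _ t fun i _ => not_lt.mp fun c => ?_).trans (by simp))
  · obtain ⟨i, hi⟩ := h e he
    exact mem_biUnion.mpr ⟨i, mem_univ _, mem_inter.mpr ⟨he, hi⟩⟩
  · obtain ⟨N, n1, n2⟩ := exists_subset_card_eq c
    have n3 := n1.trans inter_subset_right
    exact h3 i N (n1.trans inter_subset_left)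
      ⟨n2, fun e he => h1 i e (n3 he), fun e he e' he' => h2 i e (n3 he) e' (n3 he')⟩ n3

theorem vc [DecidableEq V] {G : SimpleGraph V} {m : ℕ} {C : Finset V} (hC : ∀ x y, G.Adj x y → x ∈ C ∨ y ∈ C)
    {M N : Finset (Sym2 V)} (h : IsM G m M) (hN : N ⊆ M) (h2 : ∀ e ∈ N, ∀ v ∈ e, v ∈ C) : m + #N ≤ #C := by
  refine le_trans ?_ (card_le_card (s := M.biUnion fun e => C.filter (· ∈ e))
    (biUnion_subset.mpr fun _ _ => filter_subset _ _))
  rw [card_biUnion fun e he e' he' ne => disjoint_filter.mpr fun v _ => h.2.2 e he e' he' ne v, ← h.1,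
    ← inter_eq_right.mpr hN, ← filter_mem_eq_inter, card_filter, card_eq_sum_ones M, ← sum_add_distrib]
  refine sum_le_sum fun e he => ?_
  have := h.2.1 e he
  induction e using Sym2.ind with
  | _ x y =>
    split_ifs with c
    · refine le_trans (card_pair (G.ne_of_adj this)).ge (card_le_card ?_)
      simp [insert_subset_iff, h2 _ c]
    · exact card_pos.mpr ((hC x y this).elim (fun a => ⟨x, by simp [a]⟩) fun a => ⟨y, by simp [a]⟩)

def F (G : SimpleGraph V) {A B : V → Prop} {a b : ℕ} : Subtype A ⊕ Fin a → Subtype B ⊕ Fin b → Prop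
  | .inl x, .inl y => G.Adj x y
  | _, _ => False

def W (G : SimpleGraph V) {A B : V → Prop} {a b : ℕ} : Subtype A ⊕ Fin a → Subtype B ⊕ Fin b → Prop
  | .inl x, .inl y => G.Adj x y
  | .inr _, .inr _ => False
  | _, _ => True

theorem upper [Fintype V] {G : SimpleGraph V} (A : V → Prop) (hA : ∀ x y, G.Adj x y → (A x ↔ ¬A y))
    {m k : ℕ} {M0 : Finset (Sym2 V)} (h0 : IsM G m M0) (v0 : V) (c : Sym2 V → ℕ) (c1 : ∀ e ∈ G.edgeSet, c e < k)
    (c2 : ∀ e ∈ G.edgeSet, ∀ e' ∈ G.edgeSet, e ≠ e' → c e = c e' → ∀ v ∈ e, v ∉ e')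
    (hS : ∀ (S : Finset (Sym2 V)) t, (∀ e ∈ S, e ∈ G.edgeSet) →
      (∀ N ⊆ S, IsM G (t + 1) N → ∀ M, IsM G m M → ¬N ⊆ M) → #S ≤ k * t) :
    ∃ M : Fin k → Finset (Sym2 V), (∀ i, IsM G m (M i)) ∧ ∀ e ∈ G.edgeSet, ∃ i, e ∈ M i := by
  classical
  obtain ⟨a, ha⟩ : ∃ a, Fintype.card {x // A x} = m + a := Nat.exists_eq_add_of_le (by
    simpa [Fintype.card_subtype] using vc (C := univ.filter A)
      (fun x y h => by have := hA x y h; simp; tauto) h0 (empty_subset _) (by simp))
  obtain ⟨b, hb⟩ : ∃ b, Fintype.card {x // ¬A x} = m + b := Nat.exists_eq_add_of_le (by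
    rw [Fintype.card_subtype]
    simpa using vc (C := univ.filter fun x => ¬A x)
      (fun x y h => by have := hA x y h; simp; tauto) h0 (empty_subset _) (by simp))
  let φ : {x // A x} ⊕ Fin b → {x // ¬A x} ⊕ Fin a → Sym2 V :=
    fun x y => s(x.elim (·.1) fun _ => v0, y.elim (·.1) fun _ => v0)
  have p1 : ∀ x y, F G x y → φ x y ∈ G.edgeSet := by rintro (x | x) (y | y) h <;> first | exact h | exact h.elim
  have p2 : ∀ x y x' y', F G x y → F G x' y' → φ x y = φ x' y' → x = x' ∧ y = y' := by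
    rintro (x | x) (y | y) (x' | x') (y' | y') h h' e <;> try exact h.elim
    all_goals try exact h'.elim
    have := x.2; have := y'.2
    simp only [φ, Sum.elim_inl, Sym2.eq_iff] at e
    grind
  let f : {x // A x} ⊕ Fin b → {x // ¬A x} ⊕ Fin a → ℕ := fun x y => if F G x y then 1 else 0
  have d1 : ∀ x, ∑ y, f x y ≤ k := fun x => by
    rw [← card_filter, ← card_range k]
    refine card_le_card_of_injOn (fun y => c (φ x y)) (fun y hy => by simpa using c1 _ (p1 _ _ (by simpa using hy)))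
      fun y hy y' hy' e => by_contra fun n => ?_
    have hy : F G x y := by simpa using hy
    have hy' : F G x y' := by simpa using hy'
    exact c2 _ (p1 _ _ hy) _ (p1 _ _ hy') (fun e => n (p2 _ _ _ _ hy hy' e).2) e _ (Sym2.mem_mk_left _ _)
      (Sym2.mem_mk_left _ _)
  have d2 : ∀ y, ∑ x, f x y ≤ k := fun y => by
    rw [← card_filter, ← card_range k]
    refine card_le_card_of_injOn (fun x => c (φ x y)) (fun x hx => by simpa using c1 _ (p1 _ _ (by simpa using hx)))
      fun x hx x' hx' e => by_contra fun n => ?_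
    have hx : F G x y := by simpa using hx
    have hx' : F G x' y := by simpa using hx'
    exact c2 _ (p1 _ _ hx) _ (p1 _ _ hx') (fun e => n (p2 _ _ _ _ hx hx' e).1) e _ (Sym2.mem_mk_right _ _)
      (Sym2.mem_mk_right _ _)
  have tot : ∑ x, (k - ∑ y, f x y) = ∑ y, (k - ∑ x, f x y) := by
    rw [sum_tsub_distrib _ fun x _ => d1 x, sum_tsub_distrib _ fun y _ => d2 y, sum_comm]
    simp only [sum_const, card_univ, Fintype.card_sum, ha, hb, Fintype.card_fin, add_right_comm]
  refine (H31.Konig.bmatch (W G) _ _ (fun X N mN => ?_) tot).elim fun ν ⟨n1, n2, n3⟩ => ?_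
  swap
  · obtain ⟨σ, s1, s2, s3⟩ := H31.Konig.konig k (fun x y => ν x y + f x y)
      (fun x => by rw [sum_add_distrib, n2, Nat.sub_add_cancel (d1 x)])
      (fun y => by rw [sum_add_distrib, n3, Nat.sub_add_cancel (d2 y)])
    have s4 : ∀ i x, W G x (σ i x) := fun i x => by
      have := s2 i x
      generalize σ i x = y at this
      by_cases e : F G x y
      · rcases x with x | x <;> rcases y with y | y <;> trivial
      · exact n1 _ _ (by simpa [f, e] using this)
    refine ⟨fun i => (univ.filter fun x => F G x (σ i x)).image fun x => φ x (σ i x),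
      fun i => ⟨?_, ?_, ?_⟩, ?_⟩
    · rw [card_image_of_injOn fun x hx x' hx' e => (p2 _ _ _ _ (by simpa using hx) (by simpa using hx') e).1]
      have e1 := card_filter_add_card_filter_not (s := univ) fun x => F G x (σ i x)
      have e2 : #(univ.filter fun x => ¬F G x (σ i x)) = #(univ : Finset (Fin a ⊕ Fin b)) := by
        refine (card_bij (fun z _ => z.elim (fun y => surjInv (s1 i).surjective (.inr y)) .inr) ?_ ?_ ?_).symm
        · rintro (y | y) - <;> simp only [Sum.elim_inl, Sum.elim_inr, mem_filter, mem_univ, true_and, surjInv_eq]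
          · generalize surjInv _ _ = x
            rcases x with x | x <;> exact id
          · exact id
        · have : ∀ y z, surjInv (s1 i).surjective (.inr y) ≠ .inr z := fun y z e => by
            have := s4 i (.inr z)
            rw [← e, surjInv_eq (s1 i).surjective, e] at this; exact this
          rintro (y | y) - (z | z) - e <;> simp only [Sum.elim_inl, Sum.elim_inr] at e
          · simpa using injective_surjInv _ e
          · exact (this _ _ e).elim
          · exact (this _ _ e.symm).elim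
          · simpa using e
        · rintro (x | x) hx
          · have := s4 i (.inl x)
            have hx := (mem_filter.mp hx).2
            cases e : σ i (.inl x) with
            | inl y => rw [e] at this hx; exact (hx this).elim
            | inr y => exact ⟨.inl y, mem_univ _, (s1 i).1 (by simp [surjInv_eq, e])⟩
          · exact ⟨.inr x, mem_univ _, rfl⟩
      simp only [card_univ, Fintype.card_sum, ha, Fintype.card_fin] at e1 e2
      omega
    · simp only [forall_mem_image, mem_filter]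
      exact fun x hx => p1 _ _ hx.2
    · simp only [forall_mem_image, mem_filter]
      intro x hx x' hx' ne v h h'
      have n1 : x ≠ x' := fun e => ne (by rw [e])
      have n2 := (s1 i).1.ne n1
      have hx := hx.2
      have hx' := hx'.2
      generalize σ i x = y at *
      generalize σ i x' = y' at *
      rcases x with x | x <;> rcases y with y | y <;> rcases x' with x' | x' <;> rcases y' with y' | y' <;>
        try exact hx.elim
      all_goals try exact hx'.elim
      have := x.2; have := y.2; have := x'.2; have := y'.2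
      simp only [φ, Sum.elim_inl, Sym2.mem_iff] at h h'
      grind
    · have : ∀ x y, G.Adj x y → A x → ∃ i, s(x, y) ∈ (univ.filter fun x => F G x (σ i x)).image
          fun x => φ x (σ i x) := fun x y h hx => by
        obtain ⟨i, hi⟩ := s3 (.inl ⟨x, hx⟩) (.inl ⟨y, (hA x y h).mp hx⟩) (by simp [f, F, h])
        exact ⟨i, mem_image.mpr ⟨.inl ⟨x, hx⟩, by simpa [hi, F] using h, by rw [hi]; rfl⟩⟩
      intro e he
      induction e using Sym2.ind with
      | _ x y =>
        by_cases hx : A x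
        · exact this x y he hx
        · rw [Sym2.eq_swap]; exact this y x (G.adj_symm he) (by have := hA x y he; tauto)
  by_cases u : N = univ
  · rw [u, ← tot]; exact sum_le_sum_of_subset (subset_univ _)
  suffices k * #X + ∑ x ∈ Xᶜ, ∑ y ∈ N, f x y ≤ k * #N by
    rw [sum_tsub_distrib _ fun x _ => d1 x, sum_tsub_distrib _ fun y _ => d2 y, sum_comm (s := N),
      ← sum_add_sum_compl X, sum_congr rfl (g := fun x => ∑ y ∈ N, f x y) fun x hx =>
        (sum_subset (subset_univ _) fun y _ hy => if_neg fun e => hy ((mN y).mpr ⟨x, hx, by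
          rcases x with x | x <;> rcases y with y | y <;> trivial⟩)).symm]
    simp only [sum_const, smul_eq_mul, mul_comm _ k]
    omega
  let C : Finset V := (Xᶜ.toLeft.image (·.1)) ∪ N.toLeft.image (·.1)
  have hC : ∀ x y, G.Adj x y → A x → x ∈ C ∨ y ∈ C := fun x y h hx => by
    by_cases e : .inl ⟨x, hx⟩ ∈ X
    · exact Or.inr (mem_union_right _ (mem_image.mpr ⟨⟨y, (hA x y h).mp hx⟩,
        mem_toLeft.mpr ((mN _).mpr ⟨_, e, h⟩), rfl⟩))
    · exact Or.inl (mem_union_left _ (mem_image.mpr ⟨⟨x, hx⟩, by simpa using e, rfl⟩))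
  have hC : ∀ x y, G.Adj x y → x ∈ C ∨ y ∈ C := fun x y h => by
    by_cases hx : A x
    · exact hC x y h hx
    · exact (hC y x h.symm (by have := hA x y h; tauto)).symm
  obtain ⟨t, ht⟩ := Nat.exists_eq_add_of_le (vc hC h0 (empty_subset _) (by simp))
  have k1 : ∑ x ∈ Xᶜ, ∑ y ∈ N, f x y ≤ k * t := by
    rw [← sum_product', ← card_filter, ← card_image_of_injOn (f := fun z => φ z.1 z.2) fun z hz z' hz' e =>
      Prod.ext_iff.mpr (p2 _ _ _ _ (mem_filter.mp hz).2 (mem_filter.mp hz').2 e)]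
    refine hS _ t (forall_mem_image.mpr fun z hz => p1 _ _ (mem_filter.mp hz).2) fun T T1 T2 M hM T3 => ?_
    have := vc hC hM T3 fun e he v hv => by
      obtain ⟨⟨x | x, y | y⟩, z1, rfl⟩ := mem_image.mp (T1 he) <;> obtain ⟨z1, z2⟩ := mem_filter.mp z1 <;>
        try exact z2.elim
      obtain ⟨z3, z4⟩ := mem_product.mp z1
      rcases Sym2.mem_iff.mp hv with rfl | rfl
      · exact mem_union_left _ (mem_image_of_mem _ (mem_toLeft.mpr z3))
      · exact mem_union_right _ (mem_image_of_mem _ (mem_toLeft.mpr z4))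
    rw [T2.1, ht] at this; simp at this
  have k2 : #C ≤ #Xᶜ.toLeft + #N.toLeft := (card_union_le _ _).trans (add_le_add card_image_le card_image_le)
  have k3 := card_toLeft_add_card_toRight (u := X)
  have k4 := card_toLeft_add_card_toRight (u := N)
  have k5 : #X.toLeft + #Xᶜ.toLeft = m + a := by
    rw [← ha, ← card_add_card_compl X.toLeft]; congr 2; ext; simp
  rw [ht, card_empty, add_zero] at k2
  rcases X.eq_empty_or_nonempty with rfl | ⟨x | x, hx⟩
  · simp [show N = ∅ from eq_empty_of_forall_notMem (by simpa using mN)]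
  · have r1 : N.toRight = univ := eq_univ_of_forall fun y => mem_toRight.mpr ((mN _).mpr ⟨_, hx, trivial⟩)
    have r2 : X.toRight = ∅ := eq_empty_of_forall_notMem fun z hz => u (eq_univ_of_forall (by
      rintro (y | y)
      · exact (mN _).mpr ⟨_, mem_toRight.mp hz, trivial⟩
      · exact (mN _).mpr ⟨_, hx, trivial⟩))
    rw [r1, card_univ, Fintype.card_fin] at k4
    rw [r2, card_empty] at k3
    exact (add_le_add_right k1 _).trans ((mul_add _ _ _).ge.trans (Nat.mul_le_mul_left _ (by omega)))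
  · have r1 : N.toLeft = univ := eq_univ_of_forall fun y => mem_toLeft.mpr ((mN _).mpr ⟨_, hx, trivial⟩)
    have r2 : X.toLeft = ∅ := eq_empty_of_forall_notMem fun z hz => u (eq_univ_of_forall (by
      rintro (y | y)
      · exact (mN _).mpr ⟨_, hx, trivial⟩
      · exact (mN _).mpr ⟨_, mem_toLeft.mp hz, trivial⟩))
    have r3 : #X.toRight ≤ b := by simpa using card_le_univ X.toRight
    rw [r1, card_univ, hb] at k4
    rw [r2, card_empty] at k3
    have k6 : ∑ x ∈ Xᶜ, ∑ y ∈ N, f x y ≤ k * m := by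
      rw [← sum_product', ← card_filter, ← card_image_of_injOn (f := fun z => φ z.1 z.2) fun z hz z' hz' e =>
        Prod.ext_iff.mpr (p2 _ _ _ _ (mem_filter.mp hz).2 (mem_filter.mp hz').2 e)]
      refine hS _ m (forall_mem_image.mpr fun z hz => p1 _ _ (mem_filter.mp hz).2) fun T T1 T2 M hM T3 => ?_
      have := card_le_card T3
      rw [T2.1, hM.1] at this; omega
    exact (add_le_add_right k6 _).trans ((mul_add _ _ _).ge.trans (Nat.mul_le_mul_left _ (by omega)))

theorem result [Fintype V] (G : SimpleGraph V) (hG : G.IsBipartite) (m : ℕ) (hm : 1 ≤ m) (h : Coverable G m) :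
    exc G m = max (chi G) (max ⌈(G.edgeSet.ncard : ℚ) / m⌉₊
      ((Icc 1 (m - 1)).sup fun t => ⌈(s G m t : ℚ) / t⌉₊)) := by
  classical
  have ce : ∀ n t k : ℕ, 1 ≤ t → (⌈(n : ℚ) / t⌉₊ ≤ k ↔ n ≤ k * t) := fun n t k ht => by
    rw [Nat.ceil_le, div_le_iff₀ (by exact_mod_cast ht)]; exact_mod_cast Iff.rfl
  have cE : G.edgeSet.ncard = #G.edgeFinset := Set.ncard_eq_toFinset_card' _
  have bd : ∀ t, BddAbove {n | ∃ S, Split G m t S ∧ #S = n} := fun t =>
    ⟨_, by rintro _ ⟨S, -, rfl⟩; exact card_le_univ S⟩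
  have lo : ∀ k, ∀ M : Fin k → Finset (Sym2 V), (∀ i, IsM G m (M i)) → (∀ e ∈ G.edgeSet, ∃ i, e ∈ M i) →
      ∃ c : Sym2 V → ℕ, (∀ e ∈ G.edgeSet, c e < k) ∧
        ∀ e ∈ G.edgeSet, ∀ e' ∈ G.edgeSet, e ≠ e' → c e = c e' → ∀ v ∈ e, v ∉ e' := fun k M m1 m2 => by
    choose c hc using m2
    refine ⟨fun e => if h : e ∈ G.edgeSet then c e h else 0, fun e he => by simp [he], fun e he e' he' ne a => ?_⟩
    simp only [he, he', dif_pos, Fin.val_inj] at a
    exact (m1 _).2.2 e (hc e he) e' (a ▸ hc e' he') ne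
  obtain ⟨M, m1, m2⟩ : exc G m ∈ {k | ∃ M : Fin k → Finset (Sym2 V), (∀ i, IsM G m (M i)) ∧
      ∀ e ∈ G.edgeSet, ∃ i, e ∈ M i} := by
    choose M m1 m2 using h
    exact Nat.sInf_mem (s := {k | ∃ M : Fin k → Finset (Sym2 V), (∀ i, IsM G m (M i)) ∧
      ∀ e ∈ G.edgeSet, ∃ i, e ∈ M i}) ⟨_, fun i => M _ ((Fintype.equivFin G.edgeSet).symm i).2, fun i => m1 _ _,
      fun e he => ⟨Fintype.equivFin _ ⟨e, he⟩, by simpa using m2 e he⟩⟩
  refine le_antisymm ?_ (max_le (Nat.sInf_le (lo _ M m1 m2)) (max_le ?_ (Finset.sup_le fun t ht => ?_)))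
  · rcases G.edgeSet.eq_empty_or_nonempty with e | ⟨e, he⟩
    · exact (Nat.sInf_le (m := 0) (by exact ⟨Fin.elim0, fun i => i.elim0, by simp [e]⟩)).trans (Nat.zero_le _)
    obtain ⟨M0, h0, -⟩ := h e he
    obtain ⟨c, c1, c2⟩ : ∃ c : Sym2 V → ℕ, (∀ e ∈ G.edgeSet, c e < chi G) ∧ _ :=
      Nat.sInf_mem (s := {k | ∃ c : Sym2 V → ℕ, (∀ e ∈ G.edgeSet, c e < k) ∧ _}) ⟨_, lo _ M m1 m2⟩
    obtain ⟨col⟩ := hG
    generalize hk : max (chi G) _ = k
    obtain ⟨k1, k2⟩ := max_le_iff.mp hk.le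
    obtain ⟨k2, k3⟩ := max_le_iff.mp k2
    refine Nat.sInf_le (upper (col · = 0) (fun x y a => by have := col.valid a; omega) h0 e.out.1 c
      (fun e he => (c1 e he).trans_le k1) c2 fun S t S1 S2 => ?_)
    by_cases a : m ≤ t
    · refine le_trans ?_ (((ce _ _ _ hm).mp k2).trans (Nat.mul_le_mul_left _ a))
      exact cE ▸ card_le_card fun e he => by simpa using S1 e he
    by_cases b : ∃ N ⊆ S, IsM G (t + 1) N
    · rcases Nat.eq_zero_or_pos t with rfl | t0
      · obtain ⟨N, n1, n2⟩ := b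
        obtain ⟨e, rfl⟩ := card_eq_one.mp n2.1
        obtain ⟨M, a1, a2⟩ := h e (n2.2.1 e (mem_singleton_self _))
        exact (S2 _ n1 n2 M a1 (by simpa using a2)).elim
      · exact (le_csSup (bd t) ⟨S, ⟨S1, b, S2⟩, rfl⟩).trans ((ce _ _ _ t0).mp
          ((Finset.sup_le_iff.mp k3) t (mem_Icc.mpr ⟨t0, by omega⟩)))
    · refine cov (G := G) (fun i => G.edgeFinset.filter (c · = i))
        (fun e he => ⟨⟨c e, (c1 e (S1 e he)).trans_le k1⟩, by simpa using S1 e he⟩)
        (fun i e he => by simpa using (mem_filter.mp he).1) (fun i e he e' he' ne => ?_)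
        fun i N n1 n2 _ => b ⟨N, n1, n2⟩
      simp only [mem_filter, SimpleGraph.mem_edgeFinset] at he he'
      exact c2 e he.1 e' he'.1 ne (he.2.trans he'.2.symm)
  · rw [ce _ _ _ hm, cE]
    refine cov M (fun e he => m2 e (by simpa using he)) (fun i => (m1 i).2.1) (fun i => (m1 i).2.2)
      fun i N _ n2 n3 => ?_
    have := card_le_card n3
    rw [n2.1, (m1 i).1] at this; omega
  · rw [ce _ _ _ (mem_Icc.mp ht).1]
    refine csSup_le' ?_
    rintro _ ⟨S, ⟨S1, -, S2⟩, rfl⟩
    exact cov M (fun e he => m2 e (S1 e he)) (fun i => (m1 i).2.1) (fun i => (m1 i).2.2)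
      fun i N n1 n2 => S2 N n1 n2 _ (m1 i)

end Pool.Agent.Results.MP_0e8bc2_co.Formula
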